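import Pool.Agent.H7.V.H33R3.Bom.Stmts

set_option autoImplicit false

/-! # Project H33-BOM, task C3: passage to the limit in the area inequality (helper643) -/

namespace Pool.Agent.H643R3.BomC3

open Complex Metric Set Filter Topology MeasureTheory
open Pool.Agent.H33R3.Bom

theorem exists_antideriv (q : Polynomial ℂ) : ∃ V : Polynomial ℂ, Polynomial.derivative V = q := by
  induction q using Polynomial.induction_on' with
  | add p q hp hq =>
    obtain ⟨V, hV⟩ := hp
    obtain ⟨W, hW⟩ := hq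
    exact ⟨V + W, by rw [Polynomial.derivative_add, hV, hW]⟩
  | monomial n a =>
    refine ⟨Polynomial.monomial (n + 1) (a / ((n : ℂ) + 1)), ?_⟩
    rw [Polynomial.derivative_monomial]
    have h : ((n : ℂ) + 1) ≠ 0 := by exact_mod_cast Nat.succ_ne_zero n
    congr 1
    push_cast
    field_simp

/-- the constant in the first argument does not matter -/
theorem shift (a b : ℝ → ℂ) (hb : Continuous b) (ha : ∀ θ, HasDerivAt a (b θ * I) θ)
    (hper : a (2 * Real.pi) = a 0) :
    ∫ θ in (0 : ℝ)..(2 * Real.pi), (starRingEnd ℂ) (a θ) * b θ =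
      ∫ θ in (0 : ℝ)..(2 * Real.pi), (starRingEnd ℂ) (a θ - a 0) * b θ := by
  have hac : Continuous a := continuous_iff_continuousAt.2 fun θ => (ha θ).continuousAt
  have h0 : ∫ θ in (0 : ℝ)..(2 * Real.pi), b θ * I = 0 := by
    rw [intervalIntegral.integral_eq_sub_of_hasDerivAt (f := a) (fun θ _ => ha θ)
      ((hb.mul continuous_const).intervalIntegrable _ _), hper, sub_self]
  have h1 : ∫ θ in (0 : ℝ)..(2 * Real.pi), b θ = 0 := by
    rw [intervalIntegral.integral_mul_const] at h0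
    rcases mul_eq_zero.1 h0 with h | h
    · exact h
    · exact absurd h I_ne_zero
  have h2 : ∫ θ in (0 : ℝ)..(2 * Real.pi), (starRingEnd ℂ) (a θ - a 0) * b θ =
      (∫ θ in (0 : ℝ)..(2 * Real.pi), (starRingEnd ℂ) (a θ) * b θ) -
      ∫ θ in (0 : ℝ)..(2 * Real.pi), (starRingEnd ℂ) (a 0) * b θ := by
    rw [← intervalIntegral.integral_sub]
    · refine intervalIntegral.integral_congr fun θ _ => ?_
      simp only [map_sub]
      ring
    · exact ((continuous_conj.comp hac).mul hb).intervalIntegrable _ _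
    · exact (continuous_const.mul hb).intervalIntegrable _ _
  rw [h2, intervalIntegral.integral_const_mul, h1, mul_zero, sub_zero]

theorem est (a b a₂ b₂ : ℝ → ℂ) (hb : Continuous b) (hb₂ : Continuous b₂)
    (ha : ∀ θ, HasDerivAt a (b θ * I) θ) (ha₂ : ∀ θ, HasDerivAt a₂ (b₂ θ * I) θ)
    (hper : a (2 * Real.pi) = a 0) (hper₂ : a₂ (2 * Real.pi) = a₂ 0) (η A B : ℝ) (hη0 : 0 ≤ η)
    (hη : ∀ θ, ‖b θ - b₂ θ‖ ≤ η) (hA : ∀ θ ∈ Icc (0 : ℝ) (2 * Real.pi), ‖a θ - a 0‖ ≤ A)
    (hB : ∀ θ ∈ Icc (0 : ℝ) (2 * Real.pi), ‖b θ‖ ≤ B) :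
    ‖(∫ θ in (0 : ℝ)..(2 * Real.pi), (starRingEnd ℂ) (a θ) * b θ) -
      ∫ θ in (0 : ℝ)..(2 * Real.pi), (starRingEnd ℂ) (a₂ θ) * b₂ θ‖ ≤
      (A * η + 2 * Real.pi * η * (B + η)) * (2 * Real.pi) := by
  have hpi := Real.pi_pos
  have hac : Continuous a := continuous_iff_continuousAt.2 fun θ => (ha θ).continuousAt
  have hac₂ : Continuous a₂ := continuous_iff_continuousAt.2 fun θ => (ha₂ θ).continuousAt
  rw [shift a b hb ha hper, shift a₂ b₂ hb₂ ha₂ hper₂, ← intervalIntegral.integral_sub]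
  rotate_left
  · exact ((continuous_conj.comp (hac.sub continuous_const)).mul hb).intervalIntegrable _ _
  · exact ((continuous_conj.comp (hac₂.sub continuous_const)).mul hb₂).intervalIntegrable _ _
  have hD : ∀ θ ∈ Icc (0 : ℝ) (2 * Real.pi), ‖(a θ - a₂ θ) - (a 0 - a₂ 0)‖ ≤ η * (θ - 0) := by
    refine norm_image_sub_le_of_norm_deriv_le_segment' (f := fun θ => a θ - a₂ θ)
      (f' := fun θ => b θ * I - b₂ θ * I) ?_ ?_
    · intro θ _
      exact ((ha θ).sub (ha₂ θ)).hasDerivWithinAt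
    · intro θ _
      rw [← sub_mul, norm_mul, norm_I, mul_one]
      exact hη θ
  have key : ∀ θ ∈ Set.uIoc (0 : ℝ) (2 * Real.pi),
      ‖(starRingEnd ℂ) (a θ - a 0) * b θ - (starRingEnd ℂ) (a₂ θ - a₂ 0) * b₂ θ‖ ≤
        A * η + 2 * Real.pi * η * (B + η) := by
    intro θ hθ
    rw [Set.uIoc_of_le (by positivity)] at hθ
    have hθ' : θ ∈ Icc (0 : ℝ) (2 * Real.pi) := ⟨hθ.1.le, hθ.2⟩
    have e : (starRingEnd ℂ) (a θ - a 0) * b θ - (starRingEnd ℂ) (a₂ θ - a₂ 0) * b₂ θ =
        (starRingEnd ℂ) (a θ - a 0) * (b θ - b₂ θ) +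
        (starRingEnd ℂ) ((a θ - a₂ θ) - (a 0 - a₂ 0)) * b₂ θ := by
      simp only [map_sub]
      ring
    rw [e]
    refine (norm_add_le _ _).trans ?_
    rw [norm_mul, norm_mul, RCLike.norm_conj, RCLike.norm_conj]
    have h1 := hA θ hθ'
    have h2 := hη θ
    have h3 := hD θ hθ'
    have h4 : ‖b₂ θ‖ ≤ B + η := by
      have : ‖b₂ θ‖ ≤ ‖b θ‖ + ‖b θ - b₂ θ‖ := by
        have := norm_sub_norm_le (b₂ θ) (b θ)
        rw [norm_sub_rev] at this
        linarith
      have := hB θ hθ'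
      linarith
    have h5 : η * (θ - 0) ≤ 2 * Real.pi * η := by nlinarith [hθ'.2]
    have hA0 : 0 ≤ A := (norm_nonneg _).trans h1
    refine add_le_add (mul_le_mul h1 h2 (norm_nonneg _) hA0)
      (mul_le_mul (h3.trans h5) h4 (norm_nonneg _) (by positivity))
  have := intervalIntegral.norm_integral_le_of_norm_le_const key
  rw [sub_zero, abs_of_pos (by positivity)] at this
  exact this

theorem taskC3 : TaskC3 := by
  intro hC1 Y hY R hR0 hR1 Q φ hQ hφ
  have hpi := Real.pi_pos
  set G : ℂ → ℂ := fun z => Y z / z with hG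
  have hopen : IsOpen (ball (0 : ℂ) 1 \ {0}) := isOpen_ball.sdiff isClosed_singleton
  have hGd : DifferentiableOn ℂ G (ball (0 : ℂ) 1 \ {0}) := by
    intro z hz
    have h1 : DifferentiableAt ℂ Y z := hY.diff.differentiableAt (isOpen_ball.mem_nhds hz.1)
    exact (h1.div differentiableAt_id (by simpa using hz.2)).differentiableWithinAt
  have hsub : sphere (0 : ℂ) R ⊆ ball (0 : ℂ) 1 \ {0} := by
    intro z hz
    rw [mem_sphere_zero_iff_norm] at hz
    refine ⟨by rw [mem_ball_zero_iff]; linarith, ?_⟩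
    intro h
    rw [Set.mem_singleton_iff] at h
    rw [h, norm_zero] at hz
    linarith
  have hGc : ContinuousOn G (sphere (0 : ℂ) R) := (hGd.continuousOn).mono hsub
  have hG'c : ContinuousOn (deriv G) (sphere (0 : ℂ) R) :=
    ((hGd.deriv hopen).continuousOn).mono hsub
  have hQc : ContinuousOn Q (sphere (0 : ℂ) R) := by
    refine continuousOn_of_uniform_approx_of_continuousOn fun u hu => ?_
    obtain ⟨ε, hε, hεu⟩ := Metric.mem_uniformity_dist.1 hu
    obtain ⟨q, hq⟩ := hQ (ε / 2) (by positivity)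
    refine ⟨fun z => q.eval (G z), ?_, ?_⟩
    · exact q.continuous.comp_continuousOn hGc
    · intro z hz
      apply hεu
      rw [dist_eq_norm, norm_sub_rev]
      have := hq z (mem_sphere_zero_iff_norm.1 hz)
      exact lt_of_le_of_lt this (by linarith)
  have hγs : ∀ θ, circleMap 0 R θ ∈ sphere (0 : ℂ) R := fun θ => circleMap_mem_sphere 0 hR0.le θ
  have hγn : ∀ θ, ‖circleMap 0 R θ‖ = R := fun θ => mem_sphere_zero_iff_norm.1 (hγs θ)
  have hγc : Continuous (circleMap 0 R) := continuous_circleMap 0 R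
  have hper : circleMap 0 R (2 * Real.pi) = circleMap 0 R 0 := by
    have := periodic_circleMap 0 R 0
    simpa using this
  -- the functions on the circle
  set b : ℝ → ℂ := fun θ => circleMap 0 R θ * (Q (circleMap 0 R θ) * deriv G (circleMap 0 R θ))
    with hb
  have hbc : Continuous b := by
    refine hγc.mul ((hQc.comp_continuous hγc hγs).mul (hG'c.comp_continuous hγc hγs))
  set a : ℝ → ℂ := fun θ => φ (circleMap 0 R θ) with ha
  have had : ∀ θ, HasDerivAt a (b θ * I) θ := by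
    intro θ
    have h1 := (hφ _ (hγn θ)).scomp θ (hasDerivAt_circleMap 0 R θ)
    convert! h1 using 1
    simp only [hb, smul_eq_mul]
    ring
  have hac : Continuous a := continuous_iff_continuousAt.2 fun θ => (had θ).continuousAt
  obtain ⟨A, hA⟩ := (isCompact_Icc (a := (0 : ℝ)) (b := 2 * Real.pi)).exists_bound_of_continuousOn
    (f := fun θ => a θ - a 0) (hac.sub continuous_const).continuousOn
  obtain ⟨B, hB⟩ := (isCompact_Icc (a := (0 : ℝ)) (b := 2 * Real.pi)).exists_bound_of_continuousOn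
    (f := b) hbc.continuousOn
  obtain ⟨M, hM⟩ := (isCompact_sphere (0 : ℂ) R).exists_bound_of_continuousOn hG'c
  have hA0 : 0 ≤ A := (norm_nonneg _).trans (hA 0 ⟨le_refl _, by positivity⟩)
  have hB0 : 0 ≤ B := (norm_nonneg _).trans (hB 0 ⟨le_refl _, by positivity⟩)
  have hM0 : 0 ≤ M := (norm_nonneg _).trans (hM _ (hγs 0))
  have hJ : J R φ (deriv φ) =
      (∫ θ in (0 : ℝ)..(2 * Real.pi), (starRingEnd ℂ) (a θ) * b θ).re := by
    unfold J
    congr 1
    refine intervalIntegral.integral_congr fun θ _ => ?_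
    simp only [ha, hb]
    rw [(hφ _ (hγn θ)).deriv]
  -- the approximation
  have hbound : ∀ δ : ℝ, 0 < δ → δ ≤ 1 → J R φ (deriv φ) ≤
      δ * ((A * (R * M) + 2 * Real.pi * (R * M) * (B + R * M)) * (2 * Real.pi)) := by
    intro δ hδ hδ1
    obtain ⟨q, hq⟩ := hQ δ hδ
    obtain ⟨V, hV⟩ := exists_antideriv q
    set b₂ : ℝ → ℂ := fun θ => circleMap 0 R θ *
      (q.eval (G (circleMap 0 R θ)) * deriv G (circleMap 0 R θ)) with hb₂
    set a₂ : ℝ → ℂ := fun θ => V.eval (G (circleMap 0 R θ)) with ha₂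
    have hφ₂ : ∀ z : ℂ, ‖z‖ = R →
        HasDerivAt (fun z => V.eval (G z)) (q.eval (G z) * deriv G z) z := by
      intro z hz
      have h1 : HasDerivAt G (deriv G z) z :=
        (hGd.differentiableAt (hopen.mem_nhds (hsub (mem_sphere_zero_iff_norm.2 hz)))).hasDerivAt
      have h2 := (V.hasDerivAt (G z)).comp z h1
      rw [hV] at h2
      exact h2
    have hb₂c : Continuous b₂ := by
      refine hγc.mul ((q.continuous.comp (hGc.comp_continuous hγc hγs)).mul
        (hG'c.comp_continuous hγc hγs))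
    have had₂ : ∀ θ, HasDerivAt a₂ (b₂ θ * I) θ := by
      intro θ
      have h1 := (hφ₂ _ (hγn θ)).scomp θ (hasDerivAt_circleMap 0 R θ)
      convert! h1 using 1
      simp only [hb₂, smul_eq_mul]
      ring
    have hη : ∀ θ, ‖b θ - b₂ θ‖ ≤ δ * (R * M) := by
      intro θ
      have e : b θ - b₂ θ = circleMap 0 R θ * ((Q (circleMap 0 R θ) -
          q.eval (G (circleMap 0 R θ))) * deriv G (circleMap 0 R θ)) := by
        simp only [hb, hb₂]; ring
      rw [e, norm_mul, norm_mul, hγn θ]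
      have h1 : ‖Q (circleMap 0 R θ) - q.eval (G (circleMap 0 R θ))‖ ≤ δ := by
        rw [norm_sub_rev]
        exact hq _ (hγn θ)
      have h2 := hM _ (hγs θ)
      calc R * (‖Q (circleMap 0 R θ) - q.eval (G (circleMap 0 R θ))‖ *
            ‖deriv G (circleMap 0 R θ)‖) ≤ R * (δ * M) := by
            refine mul_le_mul_of_nonneg_left (mul_le_mul h1 h2 (norm_nonneg _) hδ.le) hR0.le
        _ = δ * (R * M) := by ring
    have hest := est a b a₂ b₂ hbc hb₂c had had₂ (by simp only [ha]; rw [hper])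
      (by simp only [ha₂]; rw [hper]) (δ * (R * M)) A B (by positivity) hη hA hB
    have hJ₂ : J R (fun z => V.eval (G z)) (deriv fun z => V.eval (G z)) =
        (∫ θ in (0 : ℝ)..(2 * Real.pi), (starRingEnd ℂ) (a₂ θ) * b₂ θ).re := by
      unfold J
      congr 1
      refine intervalIntegral.integral_congr fun θ _ => ?_
      simp only [ha₂, hb₂]
      rw [(hφ₂ _ (hγn θ)).deriv]
    have h0 : J R (fun z => V.eval (G z)) (deriv fun z => V.eval (G z)) ≤ 0 :=
      hC1 Y hY V R hR0 hR1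
    rw [hJ₂] at h0
    rw [hJ]
    have h1 := Complex.re_le_norm ((∫ θ in (0 : ℝ)..(2 * Real.pi), (starRingEnd ℂ) (a θ) * b θ) -
      ∫ θ in (0 : ℝ)..(2 * Real.pi), (starRingEnd ℂ) (a₂ θ) * b₂ θ)
    rw [Complex.sub_re] at h1
    have h2 : (A * (δ * (R * M)) + 2 * Real.pi * (δ * (R * M)) * (B + δ * (R * M))) *
        (2 * Real.pi) ≤
        δ * ((A * (R * M) + 2 * Real.pi * (R * M) * (B + R * M)) * (2 * Real.pi)) := by
      have hRM : 0 ≤ R * M := by positivity
      have h3 : δ * (R * M) ≤ R * M := by nlinarith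
      have h4 : 2 * Real.pi * (δ * (R * M)) * (B + δ * (R * M)) ≤
          2 * Real.pi * (δ * (R * M)) * (B + R * M) :=
        mul_le_mul_of_nonneg_left (by linarith) (by positivity)
      nlinarith [h4, hpi]
    linarith
  by_contra hcon
  push Not at hcon
  set K : ℝ := (A * (R * M) + 2 * Real.pi * (R * M) * (B + R * M)) * (2 * Real.pi) with hK
  have hK0 : 0 ≤ K := by positivity
  set j : ℝ := J R φ (deriv φ) with hj
  have h1 := hbound (min 1 (j / (2 * (K + 1)))) (by positivity) (min_le_left _ _)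
  have h2 : min 1 (j / (2 * (K + 1))) * K ≤ j / (2 * (K + 1)) * K :=
    mul_le_mul_of_nonneg_right (min_le_right _ _) hK0
  have h3 : j / (2 * (K + 1)) * K ≤ j / 2 := by
    rw [div_mul_eq_mul_div, div_le_div_iff₀ (by positivity) (by norm_num)]
    nlinarith
  linarith

end Pool.Agent.H643R3.BomC3
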