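import Pool.Agent.H7.V.H33R3.Bom.Stmts

set_option autoImplicit false

/-! # Project H33-BOM, task C4: the circle functional and Laurent coefficients (helper643) -/

namespace Pool.Agent.H643R3.BomC4

open Complex Metric Set Filter Topology MeasureTheory
open Pool.Agent.H33R3.Bom

noncomputable def ee (m : ℤ) (θ : ℝ) : ℂ := exp ((m : ℂ) * (θ : ℂ) * I)

theorem ee_norm (m : ℤ) (θ : ℝ) : ‖ee m θ‖ = 1 := by
  unfold ee
  have : ((m : ℂ) * (θ : ℂ) * I) = (((m : ℝ) * θ : ℝ) : ℂ) * I := by push_cast; ring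
  rw [this, norm_exp_ofReal_mul_I]

theorem ee_cont (m : ℤ) : Continuous (ee m) := by
  unfold ee
  fun_prop

theorem ee_mul (m n : ℤ) (θ : ℝ) : ee m θ * ee n θ = ee (m + n) θ := by
  unfold ee
  rw [← exp_add]
  congr 1
  push_cast
  ring

theorem ee_conj (m : ℤ) (θ : ℝ) : (starRingEnd ℂ) (ee m θ) = ee (-m) θ := by
  unfold ee
  rw [← exp_conj]
  congr 1
  simp

theorem int_ee (m : ℤ) :
    ∫ θ in (0 : ℝ)..(2 * Real.pi), ee m θ = if m = 0 then ((2 * Real.pi : ℝ) : ℂ) else 0 := by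
  split_ifs with h
  · subst h
    simp [ee]
  · have hc : ((m : ℂ) * I) ≠ 0 := mul_ne_zero (by exact_mod_cast h) I_ne_zero
    have e : ∀ θ : ℝ, ee m θ = exp (((m : ℂ) * I) * θ) := by
      intro θ
      unfold ee
      congr 1
      ring
    simp only [e]
    rw [integral_exp_mul_complex hc]
    have h1 : exp ((m : ℂ) * I * ((2 * Real.pi : ℝ) : ℂ)) = 1 := by
      rw [Complex.exp_eq_one_iff]
      exact ⟨m, by push_cast; ring⟩
    rw [h1]
    simp

theorem lemM (g : ℝ → ℂ) (hg : Continuous g) (X : ℝ) (hX : ∀ θ, ‖g θ‖ ≤ X) (y : ℕ → ℂ)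
    (hy : Summable fun l => ‖y l‖) (μ : ℕ → ℤ) :
    HasSum (fun l : ℕ => y l * ∫ θ in (0 : ℝ)..(2 * Real.pi), g θ * ee (μ l) θ)
      (∫ θ in (0 : ℝ)..(2 * Real.pi), g θ * ∑' l, y l * ee (μ l) θ) := by
  have key := intervalIntegral.hasSum_integral_of_dominated_convergence
    (μ := volume) (a := (0 : ℝ)) (b := 2 * Real.pi)
    (F := fun (l : ℕ) (θ : ℝ) => g θ * (y l * ee (μ l) θ))
    (f := fun θ => g θ * ∑' l, y l * ee (μ l) θ)
    (fun l _ => X * ‖y l‖) ?_ ?_ ?_ ?_ ?_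
  · have e : (fun l : ℕ => y l * ∫ θ in (0 : ℝ)..(2 * Real.pi), g θ * ee (μ l) θ) =
        fun l : ℕ => ∫ θ in (0 : ℝ)..(2 * Real.pi), g θ * (y l * ee (μ l) θ) := by
      funext l
      rw [← intervalIntegral.integral_const_mul]
      refine intervalIntegral.integral_congr fun θ _ => ?_
      ring
    rw [e]
    exact key
  · intro l
    exact (hg.mul (continuous_const.mul (ee_cont _))).aestronglyMeasurable
  · intro l
    refine Eventually.of_forall fun θ _ => ?_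
    rw [norm_mul, norm_mul, ee_norm, mul_one]
    exact mul_le_mul_of_nonneg_right (hX θ) (norm_nonneg _)
  · exact Eventually.of_forall fun θ _ => hy.mul_left X
  · exact intervalIntegrable_const
  · refine Eventually.of_forall fun θ _ => ?_
    refine HasSum.mul_left _ ?_
    refine Summable.hasSum (Summable.of_norm ?_)
    simpa only [norm_mul, ee_norm, mul_one] using hy

theorem ser_cont (y : ℕ → ℂ) (hy : Summable fun l => ‖y l‖) (μ : ℕ → ℤ) :
    Continuous fun θ : ℝ => ∑' l, y l * ee (μ l) θ := by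
  refine continuous_tsum (fun l => continuous_const.mul (ee_cont _)) hy fun l θ => ?_
  rw [norm_mul, ee_norm, mul_one]

theorem ser_norm (y : ℕ → ℂ) (hy : Summable fun l => ‖y l‖) (μ : ℕ → ℤ) (θ : ℝ) :
    ‖∑' l, y l * ee (μ l) θ‖ ≤ ∑' l, ‖y l‖ := by
  refine (norm_tsum_le_tsum_norm ?_).trans (le_of_eq ?_)
  · simpa only [norm_mul, ee_norm, mul_one] using hy
  · simp only [norm_mul, ee_norm, mul_one]

/-- Fourier coefficients of a series -/
theorem ser_coef (y : ℕ → ℂ) (hy : Summable fun l => ‖y l‖) (μ : ℕ → ℤ) (m : ℤ) :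
    ∫ θ in (0 : ℝ)..(2 * Real.pi), (∑' l, y l * ee (μ l) θ) * ee (-m) θ =
      ∑' l, y l * (if μ l = m then ((2 * Real.pi : ℝ) : ℂ) else 0) := by
  have h := lemM (ee (-m)) (ee_cont _) 1 (fun θ => (ee_norm _ θ).le) y hy μ
  have e : ∫ θ in (0 : ℝ)..(2 * Real.pi), (∑' l, y l * ee (μ l) θ) * ee (-m) θ =
      ∫ θ in (0 : ℝ)..(2 * Real.pi), ee (-m) θ * ∑' l, y l * ee (μ l) θ := by
    refine intervalIntegral.integral_congr fun θ _ => ?_
    ring
  rw [e, ← h.tsum_eq]
  refine tsum_congr fun l => ?_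
  congr 1
  simp only [ee_mul, int_ee]
  have : (-m + μ l = 0) ↔ (μ l = m) := by constructor <;> intro h <;> omega
  simp only [this]

theorem deriv_ser {F : ℕ → ℂ → ℂ} {u : ℕ → ℝ} {U : Set ℂ} (hu : Summable u)
    (hf : ∀ i, DifferentiableOn ℂ (F i) U) (hU : IsOpen U)
    (hle : ∀ i w, w ∈ U → ‖F i w‖ ≤ u i) {z : ℂ} (hz : z ∈ U) :
    HasDerivAt (fun w => ∑' i, F i w) (∑' i, deriv (F i) z) z := by
  have h1 := hasSum_deriv_of_summable_norm hu hf hU hle hz
  have h2 := differentiableOn_tsum_of_summable_norm hu hf hU hle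
  rw [h1.tsum_eq]
  exact (h2.differentiableAt (hU.mem_nhds hz)).hasDerivAt

theorem taskC4 : TaskC4 := by
  intro R r₀ C c d Φ hr₀ hrR hR1 hd0 hΦ hd
  have hR0 : 0 < R := hr₀.trans hrR
  have hpi := Real.pi_pos
  -- bound for the coefficients
  set ρ : ℝ := (R + 1) / 2 with hρ
  have hρR : R < ρ := by rw [hρ]; linarith
  have hρ1 : ρ < 1 := by rw [hρ]; linarith
  have hρ0 : 0 < ρ := hR0.trans hρR
  obtain ⟨B, hB⟩ : ∃ B : ℝ, ∀ k, ‖c k‖ * ρ ^ k ≤ B := by
    have h1 := (hΦ (ρ : ℂ) (by rw [mem_ball_zero_iff, norm_real, Real.norm_of_nonneg hρ0.le]; exact hρ1)).summable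
    have h2 := h1.tendsto_atTop_zero.norm
    rw [norm_zero] at h2
    obtain ⟨B, hB⟩ := h2.bddAbove_range
    refine ⟨B, fun k => ?_⟩
    have h3 : ‖c k * (ρ : ℂ) ^ k‖ ≤ B := hB ⟨k, rfl⟩
    rwa [norm_mul, norm_pow, norm_real, Real.norm_of_nonneg hρ0.le] at h3
  have hB0 : 0 ≤ B := (by positivity : (0 : ℝ) ≤ ‖c 0‖ * ρ ^ 0).trans (hB 0)
  have hC0 : 0 ≤ C := by
    have := (norm_nonneg _).trans (hd 0)
    simpa using this
  set x : ℕ → ℂ := fun k => c k * (R : ℂ) ^ k with hx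
  set w : ℕ → ℂ := fun k => d k * ((R⁻¹ : ℝ) : ℂ) ^ k with hw
  have hxn : ∀ k, ‖x k‖ = ‖c k‖ * R ^ k := by
    intro k
    simp only [hx, norm_mul, norm_pow, norm_real, Real.norm_of_nonneg hR0.le]
  have hwn : ∀ k, ‖w k‖ = ‖d k‖ * (R⁻¹) ^ k := by
    intro k
    simp only [hw, norm_mul, norm_pow, norm_real, Real.norm_of_nonneg (inv_nonneg.2 hR0.le)]
  have hxb : ∀ k, ‖x k‖ ≤ B * (R / ρ) ^ k := by
    intro k
    rw [hxn, div_pow]
    have h1 : ‖c k‖ ≤ B / ρ ^ k := by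
      rw [le_div_iff₀ (by positivity)]
      exact hB k
    calc ‖c k‖ * R ^ k ≤ B / ρ ^ k * R ^ k := mul_le_mul_of_nonneg_right h1 (by positivity)
      _ = B * (R ^ k / ρ ^ k) := by ring
  have hwb : ∀ k, ‖w k‖ ≤ C * (r₀ / R) ^ k := by
    intro k
    rw [hwn]
    calc ‖d k‖ * (R⁻¹) ^ k ≤ C * r₀ ^ k * (R⁻¹) ^ k :=
          mul_le_mul_of_nonneg_right (hd k) (by positivity)
      _ = C * (r₀ / R) ^ k := by rw [div_eq_mul_inv, mul_pow]; ring
  have hq1 : R / ρ < 1 := by rw [div_lt_one hρ0]; exact hρR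
  have hq2 : r₀ / R < 1 := by rw [div_lt_one hR0]; exact hrR
  have hq1' : ‖(R / ρ : ℝ)‖ < 1 := by rw [Real.norm_of_nonneg (by positivity)]; exact hq1
  have hq2' : ‖(r₀ / R : ℝ)‖ < 1 := by rw [Real.norm_of_nonneg (by positivity)]; exact hq2
  have hxs1 : Summable fun k : ℕ => (k : ℝ) * ‖x k‖ := by
    refine Summable.of_nonneg_of_le (fun k => by positivity) (fun k => ?_)
      ((summable_pow_mul_geometric_of_norm_lt_one 1 hq1').mul_left B)
    rw [pow_one]
    calc (k : ℝ) * ‖x k‖ ≤ k * (B * (R / ρ) ^ k) :=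
          mul_le_mul_of_nonneg_left (hxb k) (Nat.cast_nonneg k)
      _ = B * (k * (R / ρ) ^ k) := by ring
  have hws1 : Summable fun k : ℕ => (k : ℝ) * ‖w k‖ := by
    refine Summable.of_nonneg_of_le (fun k => by positivity) (fun k => ?_)
      ((summable_pow_mul_geometric_of_norm_lt_one 1 hq2').mul_left C)
    rw [pow_one]
    calc (k : ℝ) * ‖w k‖ ≤ k * (C * (r₀ / R) ^ k) :=
          mul_le_mul_of_nonneg_left (hwb k) (Nat.cast_nonneg k)
      _ = C * (k * (r₀ / R) ^ k) := by ring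
  have hxs : Summable fun k : ℕ => ‖x k‖ :=
    Summable.of_nonneg_of_le (fun k => norm_nonneg _) hxb
      ((summable_geometric_of_norm_lt_one hq1').mul_left B)
  have hws : Summable fun k : ℕ => ‖w k‖ :=
    Summable.of_nonneg_of_le (fun k => norm_nonneg _) hwb
      ((summable_geometric_of_norm_lt_one hq2').mul_left C)
  -- bounded
  have hxB : ∀ k, ‖x k‖ ≤ B := fun k => (hxb k).trans
    (mul_le_of_le_one_right hB0 (pow_le_one₀ (by positivity) hq1.le))
  have hwC : ∀ k, ‖w k‖ ≤ C := fun k => (hwb k).trans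
    (mul_le_of_le_one_right hC0 (pow_le_one₀ (by positivity) hq2.le))
  have ex : ∀ k : ℕ, (k : ℝ) * ‖c k‖ ^ 2 * R ^ (2 * k) = (k : ℝ) * ‖x k‖ ^ 2 := by
    intro k
    rw [hxn, mul_pow, ← pow_mul, mul_comm k 2]
    ring
  have ew : ∀ k : ℕ, (k : ℝ) * ‖d k‖ ^ 2 * (R⁻¹) ^ (2 * k) = (k : ℝ) * ‖w k‖ ^ 2 := by
    intro k
    rw [hwn, mul_pow, ← pow_mul, mul_comm k 2]
    ring
  have hS1 : Summable fun k : ℕ => (k : ℝ) * ‖x k‖ ^ 2 := by
    refine Summable.of_nonneg_of_le (fun k => by positivity) (fun k => ?_) (hxs1.mul_left B)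
    rw [pow_two]
    calc (k : ℝ) * (‖x k‖ * ‖x k‖) ≤ k * (B * ‖x k‖) :=
          mul_le_mul_of_nonneg_left (mul_le_mul_of_nonneg_right (hxB k) (norm_nonneg _))
            (Nat.cast_nonneg k)
      _ = B * (k * ‖x k‖) := by ring
  have hS2 : Summable fun k : ℕ => (k : ℝ) * ‖w k‖ ^ 2 := by
    refine Summable.of_nonneg_of_le (fun k => by positivity) (fun k => ?_) (hws1.mul_left C)
    rw [pow_two]
    calc (k : ℝ) * (‖w k‖ * ‖w k‖) ≤ k * (C * ‖w k‖) :=
          mul_le_mul_of_nonneg_left (mul_le_mul_of_nonneg_right (hwC k) (norm_nonneg _))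
            (Nat.cast_nonneg k)
      _ = C * (k * ‖w k‖) := by ring
  simp only [ex, ew]
  refine ⟨hS1, hS2, ?_⟩
  -- the circle
  have hγ : ∀ θ : ℝ, circleMap 0 R θ = (R : ℂ) * ee 1 θ := by
    intro θ
    simp [circleMap, ee]
  have hee : ∀ (k : ℕ) (θ : ℝ), ee 1 θ ^ k = ee k θ := by
    intro k θ
    unfold ee
    rw [← exp_nat_mul]
    congr 1
    push_cast
    ring
  have heei : ∀ (k : ℕ) (θ : ℝ), (ee 1 θ)⁻¹ ^ k = ee (-k) θ := by
    intro k θ
    unfold ee
    rw [← exp_neg, ← exp_nat_mul]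
    congr 1
    push_cast
    ring
  have hγk : ∀ (k : ℕ) (θ : ℝ), circleMap 0 R θ ^ k = (R : ℂ) ^ k * ee k θ := by
    intro k θ
    rw [hγ, mul_pow, hee]
  have hγi : ∀ (k : ℕ) (θ : ℝ), (circleMap 0 R θ)⁻¹ ^ k = ((R⁻¹ : ℝ) : ℂ) ^ k * ee (-k) θ := by
    intro k θ
    rw [hγ, mul_inv, mul_pow, heei]
    push_cast
    rfl
  have hγn : ∀ θ, ‖circleMap 0 R θ‖ = R := fun θ =>
    mem_sphere_zero_iff_norm.1 (circleMap_mem_sphere 0 hR0.le θ)
  -- the function and its derivative on the circle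
  set P : ℝ → ℂ := fun θ => ∑' k : ℕ, x k * ee k θ with hP
  set N : ℝ → ℂ := fun θ => ∑' k : ℕ, w k * ee (-k) θ with hN
  have hval : ∀ θ, Φ (circleMap 0 R θ) + ∑' k : ℕ, d k * ((circleMap 0 R θ)⁻¹) ^ k = P θ + N θ := by
    intro θ
    congr 1
    · have h1 := (hΦ (circleMap 0 R θ) (by rw [mem_ball_zero_iff, hγn]; exact hR1)).tsum_eq
      rw [← h1]
      refine tsum_congr fun k => ?_
      rw [hγk, hx]
      ring
    · refine tsum_congr fun k => ?_
      rw [hγi, hw]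
      ring
  have hder : ∀ θ, circleMap 0 R θ * deriv (fun z => Φ z + ∑' k : ℕ, d k * (z⁻¹) ^ k)
      (circleMap 0 R θ) = (∑' k : ℕ, ((k : ℂ) * x k) * ee k θ) -
        ∑' k : ℕ, ((k : ℂ) * w k) * ee (-k) θ := by
    intro θ
    set z := circleMap 0 R θ with hz
    have hzn : ‖z‖ = R := hγn θ
    have hz0 : z ≠ 0 := by
      intro h
      rw [h, norm_zero] at hzn
      linarith
    -- Φ
    set ρ' : ℝ := (R + ρ) / 2 with hρ'
    have hρ'1 : R < ρ' := by rw [hρ']; linarith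
    have hρ'2 : ρ' < ρ := by rw [hρ']; linarith
    have hρ'0 : 0 < ρ' := hR0.trans hρ'1
    have hD1 : HasDerivAt (fun v => ∑' k : ℕ, c k * v ^ k)
        (∑' k : ℕ, deriv (fun v => c k * v ^ k) z) z := by
      refine deriv_ser (U := ball (0 : ℂ) ρ') (u := fun k => B * (ρ' / ρ) ^ k) ?_ ?_ isOpen_ball ?_ ?_
      · refine (summable_geometric_of_lt_one (by positivity) ?_).mul_left B
        rw [div_lt_one hρ0]
        exact hρ'2
      · intro k
        exact ((differentiable_id.pow k).const_mul (c k)).differentiableOn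
      · intro k v hv
        rw [mem_ball_zero_iff] at hv
        rw [norm_mul, norm_pow, div_pow]
        have h1 : ‖c k‖ ≤ B / ρ ^ k := by
          rw [le_div_iff₀ (by positivity)]
          exact hB k
        calc ‖c k‖ * ‖v‖ ^ k ≤ B / ρ ^ k * ρ' ^ k :=
              mul_le_mul h1 (pow_le_pow_left₀ (norm_nonneg _) hv.le k) (by positivity)
                (by positivity)
          _ = B * (ρ' ^ k / ρ ^ k) := by ring
      · rw [mem_ball_zero_iff, hzn]
        exact hρ'1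
    have hD1' : HasDerivAt Φ (∑' k : ℕ, deriv (fun v => c k * v ^ k) z) z := by
      refine hD1.congr_of_eventuallyEq ?_
      filter_upwards [isOpen_ball.mem_nhds (show z ∈ ball (0 : ℂ) 1 by
        rw [mem_ball_zero_iff, hzn]; exact hR1)] with v hv
      exact (hΦ v hv).tsum_eq.symm
    -- D
    set r₁ : ℝ := (r₀ + R) / 2 with hr₁
    have hr₁1 : r₀ < r₁ := by rw [hr₁]; linarith
    have hr₁2 : r₁ < R := by rw [hr₁]; linarith
    have hr₁0 : 0 < r₁ := hr₀.trans hr₁1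
    have hUo : IsOpen {v : ℂ | r₁ < ‖v‖} := isOpen_lt continuous_const continuous_norm
    have hD2 : HasDerivAt (fun v => ∑' k : ℕ, d k * (v⁻¹) ^ k)
        (∑' k : ℕ, deriv (fun v => d k * (v⁻¹) ^ k) z) z := by
      refine deriv_ser (U := {v : ℂ | r₁ < ‖v‖}) (u := fun k => C * (r₀ / r₁) ^ k) ?_ ?_ hUo ?_ ?_
      · refine (summable_geometric_of_lt_one (by positivity) ?_).mul_left C
        rw [div_lt_one hr₁0]
        exact hr₁1
      · intro k v hv
        have hv0 : v ≠ 0 := by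
          intro h
          rw [Set.mem_ofPred_eq, h, norm_zero] at hv
          linarith
        exact (((differentiableAt_inv hv0).pow k).const_mul (d k)).differentiableWithinAt
      · intro k v hv
        rw [Set.mem_ofPred_eq] at hv
        rw [norm_mul, norm_pow, norm_inv]
        calc ‖d k‖ * (‖v‖⁻¹) ^ k ≤ (C * r₀ ^ k) * (r₁⁻¹) ^ k :=
              mul_le_mul (hd k) (pow_le_pow_left₀ (by positivity)
                (inv_anti₀ hr₁0 hv.le) k) (by positivity) (by positivity)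
          _ = C * (r₀ / r₁) ^ k := by rw [div_eq_mul_inv, mul_pow]; ring
      · rw [Set.mem_ofPred_eq, hzn]
        exact hr₁2
    have hD3 : HasDerivAt (fun z => Φ z + ∑' k : ℕ, d k * (z⁻¹) ^ k) _ z := hD1'.add hD2
    rw [hD3.deriv, mul_add, ← tsum_mul_left, ← tsum_mul_left, sub_eq_add_neg, ← tsum_neg]
    congr 1
    · refine tsum_congr fun k => ?_
      have h1 : deriv (fun v : ℂ => c k * v ^ k) z = c k * (k * z ^ (k - 1)) := by
        rw [deriv_const_mul _ (differentiableAt_pow k)]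
        simp
      rw [h1]
      rcases Nat.eq_zero_or_pos k with hk | hk
      · subst hk; simp
      · have h2 : z * (c k * (k * z ^ (k - 1))) = (k : ℂ) * (c k * z ^ k) := by
          conv_rhs => rw [← Nat.sub_add_cancel hk, pow_succ]
          rw [Nat.sub_add_cancel hk]
          ring
        rw [h2, hz, hγk, hx]
        ring
    · refine tsum_congr fun k => ?_
      have h1 : HasDerivAt (fun v : ℂ => d k * (v⁻¹) ^ k)
          (d k * ((k : ℂ) * (z⁻¹) ^ (k - 1) * (-(z ^ 2)⁻¹))) z :=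
        ((hasDerivAt_inv hz0).pow k).const_mul (d k)
      rw [h1.deriv]
      rcases Nat.eq_zero_or_pos k with hk | hk
      · subst hk; simp
      · have h2 : z * (d k * ((k : ℂ) * (z⁻¹) ^ (k - 1) * (-(z ^ 2)⁻¹))) =
            -((k : ℂ) * (d k * (z⁻¹) ^ k)) := by
          conv_rhs => rw [← Nat.sub_add_cancel hk, pow_succ]
          rw [Nat.sub_add_cancel hk]
          field_simp
        rw [h2, hz, hγi, hw]
        ring
  -- summability
  have hxs1' : Summable fun k : ℕ => ‖(k : ℂ) * x k‖ := by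
    simpa only [norm_mul, Complex.norm_natCast] using hxs1
  have hws1' : Summable fun k : ℕ => ‖(k : ℂ) * w k‖ := by
    simpa only [norm_mul, Complex.norm_natCast] using hws1
  have hPc : Continuous P := ser_cont x hxs _
  have hNc : Continuous N := ser_cont w hws _
  set g : ℝ → ℂ := fun θ => (starRingEnd ℂ) (P θ + N θ) with hg
  have hgc : Continuous g := continuous_conj.comp (hPc.add hNc)
  have hgn : ∀ θ, ‖g θ‖ ≤ (∑' k, ‖x k‖) + ∑' k, ‖w k‖ := by
    intro θ
    simp only [hg, RCLike.norm_conj]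
    exact (norm_add_le _ _).trans (add_le_add (ser_norm x hxs _ θ) (ser_norm w hws _ θ))
  have hI : ∀ m : ℤ, ∫ θ in (0 : ℝ)..(2 * Real.pi), g θ * ee m θ =
      (starRingEnd ℂ) ((∑' l : ℕ, x l * (if (l : ℤ) = m then ((2 * Real.pi : ℝ) : ℂ) else 0)) +
        ∑' l : ℕ, w l * (if (-l : ℤ) = m then ((2 * Real.pi : ℝ) : ℂ) else 0)) := by
    intro m
    have h1 := ser_coef x hxs (fun k : ℕ => (k : ℤ)) m
    have h2 := ser_coef w hws (fun k : ℕ => (-k : ℤ)) m
    rw [← h1, ← h2, ← intervalIntegral.integral_add, ← intervalIntegral.intervalIntegral_conj]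
    · refine intervalIntegral.integral_congr fun θ _ => ?_
      simp only [hg, map_add, map_mul, ee_conj, neg_neg]
      ring
    · exact (hPc.mul (ee_cont _)).intervalIntegrable _ _
    · exact (hNc.mul (ee_cont _)).intervalIntegrable _ _
  have hIp : ∀ l : ℕ, l ≠ 0 → ∫ θ in (0 : ℝ)..(2 * Real.pi), g θ * ee l θ =
      ((2 * Real.pi : ℝ) : ℂ) * (starRingEnd ℂ) (x l) := by
    intro l hl
    rw [hI, tsum_eq_single l, tsum_eq_single 0]
    · simp only [if_true, map_add, map_mul, conj_ofReal]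
      have h2 : ¬ ((-(0 : ℕ) : ℤ) = (l : ℤ)) := by omega
      rw [if_neg h2]
      simp only [map_zero, mul_zero, add_zero]
      ring
    · intro k hk
      rw [if_neg (by omega), mul_zero]
    · intro k hk
      rw [if_neg (by exact_mod_cast hk), mul_zero]
  have hIm : ∀ l : ℕ, l ≠ 0 → ∫ θ in (0 : ℝ)..(2 * Real.pi), g θ * ee (-l) θ =
      ((2 * Real.pi : ℝ) : ℂ) * (starRingEnd ℂ) (w l) := by
    intro l hl
    rw [hI, tsum_eq_single 0, tsum_eq_single l]
    · simp only [if_true, map_add, map_mul, conj_ofReal]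
      have h2 : ¬ (((0 : ℕ) : ℤ) = (-l : ℤ)) := by omega
      rw [if_neg h2]
      simp only [map_zero, mul_zero, zero_add]
      ring
    · intro k hk
      rw [if_neg (by omega), mul_zero]
    · intro k hk
      rw [if_neg (by omega), mul_zero]
  have hA := (lemM g hgc _ hgn (fun k : ℕ => (k : ℂ) * x k) hxs1' (fun k : ℕ => (k : ℤ))).tsum_eq
  have hB' := (lemM g hgc _ hgn (fun k : ℕ => (k : ℂ) * w k) hws1' (fun k : ℕ => (-k : ℤ))).tsum_eq
  have hJ : J R (fun z => Φ z + ∑' k : ℕ, d k * (z⁻¹) ^ k)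
      (deriv fun z => Φ z + ∑' k : ℕ, d k * (z⁻¹) ^ k) =
      ((∫ θ in (0 : ℝ)..(2 * Real.pi), g θ * ∑' k : ℕ, ((k : ℂ) * x k) * ee k θ) -
        ∫ θ in (0 : ℝ)..(2 * Real.pi), g θ * ∑' k : ℕ, ((k : ℂ) * w k) * ee (-k) θ).re := by
    unfold J
    rw [← intervalIntegral.integral_sub]
    · congr 1
      refine intervalIntegral.integral_congr fun θ _ => ?_
      simp only
      rw [hder, hval, mul_sub]
    · exact (hgc.mul (ser_cont _ hxs1' (fun k : ℕ => (k : ℤ)))).intervalIntegrable _ _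
    · exact (hgc.mul (ser_cont _ hws1' (fun k : ℕ => (-k : ℤ)))).intervalIntegrable _ _
  rw [hJ, ← hA, ← hB']
  have eA : ∑' l : ℕ, (l : ℂ) * x l * ∫ θ in (0 : ℝ)..(2 * Real.pi), g θ * ee l θ =
      ((2 * Real.pi * ∑' k : ℕ, (k : ℝ) * ‖x k‖ ^ 2 : ℝ) : ℂ) := by
    rw [ofReal_mul, ofReal_tsum, ← tsum_mul_left]
    refine tsum_congr fun l => ?_
    rcases eq_or_ne l 0 with hl | hl
    · subst hl; simp
    · rw [hIp l hl]
      have : x l * (starRingEnd ℂ) (x l) = ((‖x l‖ ^ 2 : ℝ) : ℂ) := by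
        rw [mul_conj, normSq_eq_norm_sq]
      calc (l : ℂ) * x l * (((2 * Real.pi : ℝ) : ℂ) * (starRingEnd ℂ) (x l)) =
            (l : ℂ) * ((2 * Real.pi : ℝ) : ℂ) * (x l * (starRingEnd ℂ) (x l)) := by ring
        _ = _ := by rw [this]; push_cast; ring
  have eB : ∑' l : ℕ, (l : ℂ) * w l * ∫ θ in (0 : ℝ)..(2 * Real.pi), g θ * ee (-l) θ =
      ((2 * Real.pi * ∑' k : ℕ, (k : ℝ) * ‖w k‖ ^ 2 : ℝ) : ℂ) := by
    rw [ofReal_mul, ofReal_tsum, ← tsum_mul_left]
    refine tsum_congr fun l => ?_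
    rcases eq_or_ne l 0 with hl | hl
    · subst hl; simp
    · rw [hIm l hl]
      have : w l * (starRingEnd ℂ) (w l) = ((‖w l‖ ^ 2 : ℝ) : ℂ) := by
        rw [mul_conj, normSq_eq_norm_sq]
      calc (l : ℂ) * w l * (((2 * Real.pi : ℝ) : ℂ) * (starRingEnd ℂ) (w l)) =
            (l : ℂ) * ((2 * Real.pi : ℝ) : ℂ) * (w l * (starRingEnd ℂ) (w l)) := by ring
        _ = _ := by rw [this]; push_cast; ring
  rw [eA, eB, sub_re, ofReal_re, ofReal_re]
  ring

end Pool.Agent.H643R3.BomC4
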